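import Pool.Agent.H143Z.Acc.Defs

set_option autoImplicit false

namespace Pool.Agent.H10Z

open Pool.Agent.H143Z.Vir Pool.Agent.H143Z.Acc

/-- joint eigenvectors with distinct eigenvalue systems summing to zero vanish -/
lemma t8_eig {V : Type} [AddCommGroup V] [Module ℂ V] (A : Finset ℕ) (D : ℕ → V →ₗ[ℂ] V)
    (T : Finset Ex) : ∀ v : Ex → V,
    (∀ a ∈ T, ∀ a' ∈ T, a ≠ a' → ∃ j ∈ A, a (Sum.inr j) ≠ a' (Sum.inr j)) →
    (∀ a ∈ T, ∀ j ∈ A, D j (v a) = ((a (Sum.inr j) : ℤ) : ℂ) • v a) →
    ∑ a ∈ T, v a = 0 → ∀ a ∈ T, v a = 0 := by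
  classical
  induction T using Finset.induction_on with
  | empty => intro v _ _ _ a ha; simp at ha
  | insert a' T ha' ih =>
    intro v hd he hs
    have key : ∀ a ∈ T, v a = 0 := by
      intro a ha
      have hne : a ≠ a' := fun h => ha' (h ▸ ha)
      obtain ⟨j, hj, hjne⟩ := hd a (Finset.mem_insert_of_mem ha) a' (Finset.mem_insert_self _ _) hne
      have h1 := ih (fun b => (((b (Sum.inr j) : ℤ) : ℂ) - ((a' (Sum.inr j) : ℤ) : ℂ)) • v b)
        (fun b hb b' hb' => hd b (Finset.mem_insert_of_mem hb) b' (Finset.mem_insert_of_mem hb'))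
        (fun b hb i hi => by
          rw [map_smul, he b (Finset.mem_insert_of_mem hb) i hi, smul_comm])
        (by
          have h2 : D j (∑ b ∈ insert a' T, v b) - ((a' (Sum.inr j) : ℤ) : ℂ) • ∑ b ∈ insert a' T, v b
              = 0 := by rw [hs]; simp
          rw [map_sum, Finset.smul_sum, ← Finset.sum_sub_distrib, Finset.sum_insert ha',
            he a' (Finset.mem_insert_self _ _) j hj, sub_self, zero_add] at h2
          rw [← h2]
          refine Finset.sum_congr rfl fun b hb => ?_
          rw [he b (Finset.mem_insert_of_mem hb) j hj, sub_smul]) a ha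
      have h3 : ((a (Sum.inr j) : ℤ) : ℂ) - ((a' (Sum.inr j) : ℤ) : ℂ) ≠ 0 := by
        rw [sub_ne_zero]; exact_mod_cast hjne
      exact (smul_eq_zero.1 h1).resolve_left h3
    intro a ha
    rcases Finset.mem_insert.1 ha with rfl | ha
    · rw [Finset.sum_insert ha', Finset.sum_eq_zero key, add_zero] at hs
      exact hs
    · exact key a ha

noncomputable abbrev bs : Module.Basis Ex ℂ R := AddMonoidAlgebra.basis Ex ℂ

lemma bs_mo (e : Ex) : bs e = mo e := by simp [mo]

lemma t8_exp (s : R) (T : Finset Ex) (hT : (bs.repr s).support ⊆ T) :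
    s = ∑ a ∈ T, bs.repr s a • mo a := by
  conv_lhs => rw [← bs.linearCombination_repr s]
  rw [Finsupp.linearCombination_apply, Finsupp.sum_of_support_subset _ hT _ (by simp)]
  exact Finset.sum_congr rfl fun a _ => by rw [bs_mo]

lemma t8_supp (A : Finset ℕ) (a : Ex) (ha : keepE (Sum.inr '' (A : Set ℕ)) a ≠ a) (r : R) :
    bs.repr (kl A r) a = 0 := by
  classical
  induction r using ind with
  | h0 => simp
  | hadd x y hx hy => rw [map_add, map_add, Finsupp.add_apply, hx, hy, add_zero]
  | hs c x hx => rw [map_smul, map_smul, Finsupp.smul_apply, hx, smul_zero]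
  | h1 e =>
    rw [kl, em_mo, ← bs_mo, Module.Basis.repr_self, Finsupp.single_apply, if_neg]
    intro h
    apply ha
    rw [← h]
    funext v
    show Set.indicator _ (Set.indicator _ e) v = Set.indicator _ e v
    rw [Set.indicator_indicator, Set.inter_self]

theorem t8 : T8 := by
  classical
  intro M _ _ ξ A ϑ e D r hsupp hϑ hϑe hξe hD hsum
  set s : ℕ → R := fun j => kl A (r j) with hs
  set T : Finset Ex := (Finset.range (D + 1)).biUnion fun j => (bs.repr (s j)).support with hT
  set b : Ex → Polynomial ℂ :=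
    fun a => ∑ j ∈ Finset.range (D + 1), Polynomial.monomial j (bs.repr (s j) a) with hb
  have hbe : ∀ a, Polynomial.aeval e (b a) = ∑ j ∈ Finset.range (D + 1), bs.repr (s j) a • e ^ j := by
    intro a
    rw [hb, map_sum]
    refine Finset.sum_congr rfl fun j _ => ?_
    rw [Polynomial.aeval_monomial, Algebra.smul_def]
  have hfix : ∀ a ∈ T, keepE (Sum.inr '' (A : Set ℕ)) a = a := by
    intro a ha
    obtain ⟨j, _, hj⟩ := Finset.mem_biUnion.1 ha
    by_contra h
    exact (Finsupp.mem_support_iff.1 hj) (t8_supp A a h (r j))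
  have hcomm : ∀ j ∈ A, ∀ a, ϑ j * Polynomial.aeval e (b a) = Polynomial.aeval e (b a) * ϑ j := by
    intro j hj a
    rw [hbe, Finset.mul_sum, Finset.sum_mul]
    refine Finset.sum_congr rfl fun i _ => ?_
    rw [mul_smul_comm, smul_mul_assoc, (Commute.pow_right (hϑe j hj) i).eq]
  have hz := t8_eig A (fun j => LinearMap.mulLeft ℂ (ϑ j) - LinearMap.mulRight ℂ (ϑ j)) T
    (fun a => ξ (mo a) * Polynomial.aeval e (b a))
    (by
      intro a ha a' ha' hne
      by_contra h
      push Not at h
      apply hne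
      rw [← hfix a ha, ← hfix a' ha']
      funext v
      show Set.indicator _ a v = Set.indicator _ a' v
      by_cases hv : v ∈ (Sum.inr '' (A : Set ℕ) : Set Va)
      · rw [Set.indicator_of_mem hv, Set.indicator_of_mem hv]
        obtain ⟨j, hj, rfl⟩ := hv
        exact h j hj
      · rw [Set.indicator_of_notMem hv, Set.indicator_of_notMem hv])
    (by
      intro a _ j hj
      simp only [LinearMap.sub_apply, LinearMap.mulLeft_apply, LinearMap.mulRight_apply]
      rw [← mul_assoc, hϑ j hj, der_mo, map_smul, add_mul, mul_assoc, hcomm j hj, mul_assoc,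
        add_sub_cancel_left, smul_mul_assoc, pr_apply])
    (by
      rw [← hsum]
      simp only [hbe, Finset.mul_sum]
      rw [Finset.sum_comm]
      refine Finset.sum_congr rfl fun j hj => ?_
      have h1 : (bs.repr (s j)).support ⊆ T :=
        Finset.subset_biUnion_of_mem (fun j => (bs.repr (s j)).support) hj
      rw [← hsupp (r j)]
      show _ = ξ (s j) * e ^ j
      conv_rhs => rw [t8_exp (s j) T h1]
      rw [map_sum, Finset.sum_mul]
      refine Finset.sum_congr rfl fun a _ => ?_
      rw [map_smul, mul_smul_comm, smul_mul_assoc])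
  have hsD : s D ≠ 0 := by
    intro h
    apply hD
    rw [← hsupp (r D)]
    show ξ (s D) = 0
    rw [h, map_zero]
  have hne : bs.repr (s D) ≠ 0 := fun h => hsD (bs.repr.map_eq_zero_iff.1 h)
  obtain ⟨a, ha⟩ := Finsupp.support_nonempty_iff.2 hne
  have haT : a ∈ T := Finset.mem_biUnion.2 ⟨D, Finset.self_mem_range_succ D, ha⟩
  refine ⟨b a, ?_, ?_⟩
  · intro h
    have h1 : (b a).coeff D = bs.repr (s D) a := by
      rw [hb]
      simp only [Polynomial.finsetSum_coeff, Polynomial.coeff_monomial]
      rw [Finset.sum_ite_eq' (Finset.range (D + 1)) D (fun j => bs.repr (s j) a),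
        if_pos (Finset.self_mem_range_succ D)]
    rw [h, Polynomial.coeff_zero] at h1
    exact (Finsupp.mem_support_iff.1 ha) h1.symm
  · have h1 := hz a haT
    have h2 : ξ (mo (-a)) * (ξ (mo a) * Polynomial.aeval e (b a)) = Polynomial.aeval e (b a) := by
      rw [← mul_assoc, ← map_mul, ← mo_add, neg_add_cancel, mo_zero, map_one, one_mul]
    rw [← h2, h1, mul_zero]

end Pool.Agent.H10Z
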