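import Mathlib

/-!
A finite nilpotent algebra (36 elements) in a congruence permutable variety whose class of
subdirectly irreducible members is not finitely axiomatisable: the algebras.
-/

set_option autoImplicit false

open FirstOrder FirstOrder.Language

namespace Pool.Agent.H10Z.SI

/-- the function symbols: one unary symbol and one binary symbol -/
inductive Fn : ℕ → Type
  | u : Fn 1
  | sub : Fn 2

/-- the signature -/
def Lg : FirstOrder.Language.{0,0} := ⟨Fn, fun _ => Empty⟩

theorem finite_fn : Finite (Σ n, Lg.Functions n) := by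
  let φ : Bool → (Σ n, Lg.Functions n) := fun b =>
    match b with
    | true => ⟨1, Fn.u⟩
    | false => ⟨2, Fn.sub⟩
  refine Finite.of_surjective φ ?_
  rintro ⟨n, g⟩
  cases g with
  | u => exact ⟨true, rfl⟩
  | sub => exact ⟨false, rfl⟩

/-- the structure given by a binary and a unary operation -/
@[reducible] def mkStr {M : Type} (s : M → M → M) (u : M → M) : Lg.Structure M where
  funMap := fun {n} g v =>
    match n, g, v with
    | _, Fn.u, v => u (v 0)
    | _, Fn.sub, v => s (v 0) (v 1)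
  RelMap := fun r _ => Empty.elim r

/-- the term `t - s` -/
def tsub {α : Type} (t s : Lg.Term α) : Lg.Term α := Term.func (L := Lg) Fn.sub ![t, s]

/-- the term `u t` -/
def tu {α : Type} (t : Lg.Term α) : Lg.Term α := Term.func (L := Lg) Fn.u ![t]

/-- the binary operation of a structure -/
def osub {M : Type} [Lg.Structure M] (x y : M) : M := Structure.funMap (L := Lg) Fn.sub ![x, y]

/-- the unary operation of a structure -/
def ou {M : Type} [Lg.Structure M] (x : M) : M := Structure.funMap (L := Lg) Fn.u ![x]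

theorem realize_tsub {α M : Type} [Lg.Structure M] (t s : Lg.Term α) (v : α → M) :
    (tsub t s).realize v = osub (t.realize v) (s.realize v) := by
  unfold tsub osub
  rw [Term.realize_func]
  congr 1
  funext i
  fin_cases i <;> rfl

theorem realize_tu {α M : Type} [Lg.Structure M] (t : Lg.Term α) (v : α → M) :
    (tu t).realize v = ou (t.realize v) := by
  unfold tu ou
  rw [Term.realize_func]
  congr 1
  funext i
  fin_cases i
  rfl

theorem term_ind {α : Type} {P : Lg.Term α → Prop} (hv : ∀ a, P (Term.var a))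
    (h1 : ∀ t, P t → P (tu t)) (h2 : ∀ t s, P t → P s → P (tsub t s)) : ∀ t, P t := by
  intro t
  induction t with
  | var a => exact hv a
  | @func l g ts ih =>
    cases g with
    | u =>
      have : ts = ![ts 0] := by
        funext i
        fin_cases i
        rfl
      rw [this]
      exact h1 _ (ih 0)
    | sub =>
      have : ts = ![ts 0, ts 1] := by
        funext i
        fin_cases i <;> rfl
      rw [this]
      exact h2 _ _ (ih 0) (ih 1)

/-- compatibility of a relation with all basic operations -/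
def Compat {M : Type} [Lg.Structure M] (θ : M → M → Prop) : Prop :=
  ∀ (n : ℕ) (f : Lg.Functions n) (x y : Fin n → M),
    (∀ i, θ (x i) (y i)) → θ (Structure.funMap f x) (Structure.funMap f y)

theorem Compat.sub {M : Type} [Lg.Structure M] {θ : M → M → Prop} (h : Compat θ)
    {a b c d : M} (h1 : θ a b) (h2 : θ c d) : θ (osub a c) (osub b d) := by
  refine h 2 Fn.sub _ _ ?_
  intro i
  fin_cases i
  · exact h1
  · exact h2

theorem Compat.u {M : Type} [Lg.Structure M] {θ : M → M → Prop} (h : Compat θ)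
    {a b : M} (h1 : θ a b) : θ (ou a) (ou b) := by
  refine h 1 Fn.u _ _ ?_
  intro i
  fin_cases i
  exact h1

theorem compat_of {M : Type} [Lg.Structure M] {θ : M → M → Prop}
    (h1 : ∀ a b, θ a b → θ (ou a) (ou b))
    (h2 : ∀ a b c d, θ a b → θ c d → θ (osub a c) (osub b d)) : Compat θ := by
  intro n f x y h
  cases f with
  | u =>
    have hx : x = ![x 0] := by
      funext i
      fin_cases i
      rfl
    have hy : y = ![y 0] := by
      funext i
      fin_cases i
      rfl
    rw [hx, hy]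
    exact h1 _ _ (h 0)
  | sub =>
    have hx : x = ![x 0, x 1] := by
      funext i
      fin_cases i <;> rfl
    have hy : y = ![y 0, y 1] := by
      funext i
      fin_cases i <;> rfl
    rw [hx, hy]
    exact h2 _ _ _ _ (h 0) (h 1)

/-- the sign character of `ZMod 2` with values in `ZMod 3` -/
def sg (a : ZMod 2) : ZMod 3 := if a = 0 then 1 else -1

/-- the indicator function of zero -/
def ind (r : ZMod 3) : ZMod 2 := if r = 0 then 1 else 0

/-- the generating algebra, with 36 elements -/
abbrev A : Type := ZMod 3 × (ZMod 2 × ZMod 2) × ZMod 3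

/-- the unary operation of `A` -/
def uA (x : A) : A := (sg (x.2.1.1 + x.2.1.2) - sg x.2.1.1, (ind x.2.2, 0), 0)

instance strA : Lg.Structure A := mkStr (fun x y => x - y) uA

theorem osub_A (x y : A) : osub x y = x - y := rfl
theorem ou_A (x : A) : ou x = uA x := rfl

/-- the points -/
abbrev S (N : ℕ) : Type := Fin N → ZMod 3

/-- the test algebras -/
abbrev B (N : ℕ) : Type := ZMod 3 × (S N → ZMod 2) × S N

/-- the unary operation of `B N` -/
def uB (N : ℕ) (x : B N) : B N :=
  (∑ ξ : S N, sg (x.2.1 ξ), fun ξ => ind (x.2.2 ⬝ᵥ ξ), 0)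

instance strB (N : ℕ) : Lg.Structure (B N) := mkStr (fun x y => x - y) (uB N)

theorem osub_B {N : ℕ} (x y : B N) : osub x y = x - y := rfl
theorem ou_B {N : ℕ} (x : B N) : ou x = uB N x := rfl

/-- the relation used to transfer identities from `A` to `B N` -/
def Rel {N : ℕ} (z : S N) (l : S N → ZMod 3) (b : B N) (a : S N → A) : Prop :=
  b.2.2 ⬝ᵥ z = 0 ∧ (∀ ξ, (a ξ).2.1 = (b.2.1 ξ, b.2.1 (ξ + z) - b.2.1 ξ)) ∧
    (∀ ξ, (a ξ).2.2 = b.2.2 ⬝ᵥ ξ) ∧ b.1 = ∑ ξ, l ξ * (a ξ).1

theorem Rel.sub {N : ℕ} {z : S N} {l : S N → ZMod 3} {b b' : B N} {a a' : S N → A}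
    (h : Rel z l b a) (h' : Rel z l b' a') : Rel z l (b - b') (fun ξ => a ξ - a' ξ) := by
  obtain ⟨h1, h2, h3, h4⟩ := h
  obtain ⟨k1, k2, k3, k4⟩ := h'
  refine ⟨?_, ?_, ?_, ?_⟩
  · simp only [Prod.snd_sub, sub_dotProduct, h1, k1, sub_zero]
  · intro ξ
    simp only [Prod.snd_sub, Prod.fst_sub, h2, k2, Pi.sub_apply, Prod.mk_sub_mk]
    congr 1
    ring
  · intro ξ
    simp only [Prod.snd_sub, h3, k3, sub_dotProduct]
  · simp only [Prod.fst_sub, h4, k4, mul_sub, Finset.sum_sub_distrib]

theorem Rel.u {N : ℕ} {z : S N} {l : S N → ZMod 3} (hl : ∀ ξ, l (ξ - z) - l ξ = 1)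
    {b : B N} {a : S N → A} (h : Rel z l b a) : Rel z l (uB N b) (fun ξ => uA (a ξ)) := by
  obtain ⟨h1, h2, h3, h4⟩ := h
  refine ⟨?_, ?_, ?_, ?_⟩
  · simp [uB]
  · intro ξ
    simp only [uB, uA, h3, dotProduct_add, h1, add_zero, sub_self]
  · intro ξ
    simp [uB, uA]
  · simp only [uB, uA, h2, add_sub_cancel, mul_sub, Finset.sum_sub_distrib]
    have e : ∑ ξ : S N, l ξ * sg (b.2.1 (ξ + z)) = ∑ ξ : S N, l (ξ - z) * sg (b.2.1 ξ) := by
      refine Fintype.sum_equiv (Equiv.addRight z) _ _ ?_
      intro ξ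
      simp
    rw [e, ← Finset.sum_sub_distrib]
    refine Finset.sum_congr rfl ?_
    intro ξ _
    rw [← sub_mul, hl, one_mul]

theorem Rel.unique {N : ℕ} {z : S N} {l : S N → ZMod 3} {b b' : B N} {a : S N → A}
    (h : Rel z l b a) (h' : Rel z l b' a) : b = b' := by
  obtain ⟨_, h2, h3, h4⟩ := h
  obtain ⟨_, k2, k3, k4⟩ := h'
  refine Prod.ext (h4.trans k4.symm) (Prod.ext ?_ ?_)
  · funext ξ
    have := (h2 ξ).symm.trans (k2 ξ)
    exact (Prod.mk.inj this).1
  · funext i
    have := (h3 (Pi.single i 1)).symm.trans (k3 (Pi.single i 1))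
    simpa using this

theorem Rel.term {N : ℕ} {z : S N} {l : S N → ZMod 3} (hl : ∀ ξ, l (ξ - z) - l ξ = 1)
    {α : Type} (w : α → B N) (a : α → S N → A) (h : ∀ j, Rel z l (w j) (a j)) :
    ∀ t : Lg.Term α, Rel z l (t.realize w) (fun ξ => t.realize (fun j => a j ξ)) := by
  refine term_ind ?_ ?_ ?_
  · intro j
    exact h j
  · intro t ht
    simp only [realize_tu]
    exact ht.u hl
  · intro t s ht hs
    simp only [realize_tsub]
    exact ht.sub hs

theorem exists_perp {n N : ℕ} (hn : n < N) (r : Fin n → S N) :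
    ∃ z : S N, z ≠ 0 ∧ ∀ j, r j ⬝ᵥ z = 0 := by
  have : Fact (Nat.Prime 3) := ⟨Nat.prime_three⟩
  let φ : S N →ₗ[ZMod 3] (Fin n → ZMod 3) := Matrix.mulVecLin (Matrix.of r)
  have hker : LinearMap.ker φ ≠ ⊥ := by
    apply LinearMap.ker_ne_bot_of_finrank_lt
    simpa using hn
  obtain ⟨z, hz, hz0⟩ := Submodule.exists_mem_ne_zero_of_ne_bot hker
  refine ⟨z, hz0, fun j => ?_⟩
  have := congrFun (LinearMap.mem_ker.mp hz) j
  simpa [φ, Matrix.mulVec] using this

theorem sq_one (c : ZMod 3) (hc : c ≠ 0) : c * c = 1 := by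
  revert c
  decide

/-- identities of `A` in fewer than `N` variables hold in `B N` -/
theorem transfer {n N : ℕ} (hn : n < N) (t s : Lg.Term (Fin n))
    (h : ∀ v : Fin n → A, t.realize v = s.realize v) (w : Fin n → B N) :
    t.realize w = s.realize w := by
  classical
  obtain ⟨z, hz0, hz⟩ := exists_perp hn (fun j => (w j).2.2)
  obtain ⟨i, hi⟩ : ∃ i, z i ≠ 0 := by
    by_contra hc
    push Not at hc
    exact hz0 (funext hc)
  let l : S N → ZMod 3 := fun ξ => -(z i * ξ i)
  have hl : ∀ ξ, l (ξ - z) - l ξ = 1 := by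
    intro ξ
    have := sq_one _ hi
    simp only [l, Pi.sub_apply]
    linear_combination this
  let a : Fin n → S N → A := fun j ξ =>
    (if ξ = z then -(w j).1 else 0, ((w j).2.1 ξ, (w j).2.1 (ξ + z) - (w j).2.1 ξ),
      (w j).2.2 ⬝ᵥ ξ)
  have hrel : ∀ j, Rel z l (w j) (a j) := by
    intro j
    refine ⟨hz j, fun _ => rfl, fun _ => rfl, ?_⟩
    have := sq_one _ hi
    simp only [a, mul_ite, mul_zero, Finset.sum_ite_eq', Finset.mem_univ, if_true, l]
    linear_combination (-(w j).1) * this
  have h1 := Rel.term hl w a hrel t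
  have h2 := Rel.term hl w a hrel s
  have e : (fun ξ => t.realize (fun j => a j ξ)) = (fun ξ => s.realize (fun j => a j ξ)) := by
    funext ξ
    exact h _
  rw [e] at h1
  exact h1.unique h2

end Pool.Agent.H10Z.SI
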