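import Pool.Agent.H10Z.SIA

/-!
Congruence permutability, nilpotence, the failing identities and uniform subdirect
irreducibility of the test algebras.
-/

set_option autoImplicit false

open FirstOrder FirstOrder.Language Filter

namespace Pool.Agent.H10Z.SI

theorem Compat.term {M : Type} [Lg.Structure M] {θ : M → M → Prop} (h : Compat θ) {α : Type}
    (v w : α → M) (hv : ∀ i, θ (v i) (w i)) :
    ∀ t : Lg.Term α, θ (t.realize v) (t.realize w) := by
  refine term_ind ?_ ?_ ?_
  · exact hv
  · intro t ht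
    simp only [realize_tu]
    exact h.u ht
  · intro t s ht hs
    simp only [realize_tsub]
    exact h.sub ht hs

/-- the identities of `A` hold in `M` -/
def InV (M : Type) [Lg.Structure M] : Prop :=
  ∀ (n : ℕ) (t s : Lg.Term (Fin n)),
    (∀ v : Fin n → A, t.realize v = s.realize v) → ∀ w : Fin n → M, t.realize w = s.realize w

theorem InV.m1 {M : Type} [Lg.Structure M] (h : InV M) (x z : M) : osub x (osub x z) = z := by
  have := h 2 (tsub (Term.var 0) (tsub (Term.var 0) (Term.var 1))) (Term.var 1) (by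
    intro v
    simp only [realize_tsub, Term.realize_var, osub_A]
    abel) ![x, z]
  simpa only [realize_tsub, Term.realize_var, Matrix.cons_val_zero, Matrix.cons_val_one] using this

theorem InV.m2 {M : Type} [Lg.Structure M] (h : InV M) (x y : M) : osub x (osub y y) = x := by
  have := h 2 (tsub (Term.var 0) (tsub (Term.var 1) (Term.var 1))) (Term.var 0) (by
    intro v
    simp only [realize_tsub, Term.realize_var, osub_A]
    abel) ![x, y]
  simpa only [realize_tsub, Term.realize_var, Matrix.cons_val_zero, Matrix.cons_val_one] using this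

theorem InV.perm {M : Type} [Lg.Structure M] (h : InV M) {α β : M → M → Prop}
    (hα : Equivalence α) (hβ : Equivalence β) (cα : Compat α) (cβ : Compat β) (x y : M) :
    (∃ z, α x z ∧ β z y) → ∃ z, β x z ∧ α z y := by
  rintro ⟨z, h1, h2⟩
  refine ⟨osub x (osub z y), ?_, ?_⟩
  · have := cβ.sub (hβ.refl x) (cβ.sub (hβ.refl z) h2)
    rwa [h.m2] at this
  · have := cα.sub h1 (hα.refl (osub z y))
    rwa [h.m1] at this

/-- the central series of `A` -/
def K : ℕ → AddSubgroup A
  | 0 => ⊤
  | 1 => (AddMonoidHom.snd _ _ |>.comp (AddMonoidHom.snd _ _) : A →+ ZMod 3).ker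
  | 2 => (AddMonoidHom.snd _ _ : A →+ (ZMod 2 × ZMod 2) × ZMod 3).ker
  | _ => ⊥

theorem mem_K1 (x : A) : x ∈ K 1 ↔ x.2.2 = 0 := Iff.rfl
theorem mem_K2 (x : A) : x ∈ K 2 ↔ x.2 = 0 := Iff.rfl

theorem K_anti (i : ℕ) : K (i + 1) ≤ K i := by
  match i with
  | 0 => exact le_top
  | 1 =>
    intro x hx
    rw [mem_K2] at hx
    rw [mem_K1, hx]
    rfl
  | 2 => exact bot_le
  | (n + 3) => exact le_refl _

theorem K_u (i : ℕ) (x y : A) (h : x - y ∈ K i) : uA x - uA y ∈ K (i + 1) := by
  match i, h with
  | 0, _ =>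
    rw [mem_K1]
    simp [uA]
  | 1, h =>
    rw [mem_K1, Prod.snd_sub, Prod.snd_sub, sub_eq_zero] at h
    rw [mem_K2]
    simp [uA, h]
  | 2, h =>
    rw [mem_K2, Prod.snd_sub, sub_eq_zero] at h
    have : uA x = uA y := by simp [uA, h]
    rw [this, sub_self]
    exact zero_mem _
  | (n + 3), h =>
    have h' : x - y = 0 := h
    rw [sub_eq_zero.mp h', sub_self]
    exact zero_mem _

theorem K_compat (i : ℕ) : Compat (fun x y : A => x - y ∈ K i) := by
  refine compat_of ?_ ?_
  · intro a b h
    exact K_anti i (K_u i a b h)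
  · intro a b c d h1 h2
    have := sub_mem h1 h2
    simp only [osub_A]
    convert this using 1
    abel

theorem K_tc (i m n : ℕ) (a b : Fin m → A) (c d : Fin n → A) (h : ∀ j, c j - d j ∈ K i) :
    ∀ t : Lg.Term (Fin m ⊕ Fin n),
      (t.realize (Sum.elim a c) - t.realize (Sum.elim a d)) -
        (t.realize (Sum.elim b c) - t.realize (Sum.elim b d)) ∈ K (i + 1) := by
  have hc : ∀ (e : Fin m → A) (t : Lg.Term (Fin m ⊕ Fin n)),
      t.realize (Sum.elim e c) - t.realize (Sum.elim e d) ∈ K i := by
    intro e t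
    refine (K_compat i).term (Sum.elim e c) (Sum.elim e d) ?_ t
    rintro (j | j)
    · simp
    · exact h j
  refine term_ind ?_ ?_ ?_
  · rintro (j | j) <;> simp
  · intro t _
    simp only [realize_tu, ou_A]
    exact sub_mem (K_u i _ _ (hc a t)) (K_u i _ _ (hc b t))
  · intro t s ht hs
    simp only [realize_tsub, osub_A]
    have := sub_mem ht hs
    convert this using 1
    abel

/-- the term `t + s` -/
def tadd {α : Type} (t s : Lg.Term α) : Lg.Term α := tsub t (tsub (tsub s s) s)

/-- the term `t + t + t` -/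
def ttri {α : Type} (t : Lg.Term α) : Lg.Term α := tadd t (tadd t t)

theorem tadd_A {α : Type} (t s : Lg.Term α) (v : α → A) :
    (tadd t s).realize v = t.realize v + s.realize v := by
  simp only [tadd, realize_tsub, osub_A]
  abel

theorem tadd_B {N : ℕ} {α : Type} (t s : Lg.Term α) (v : α → B N) :
    (tadd t s).realize v = t.realize v + s.realize v := by
  simp only [tadd, realize_tsub, osub_B]
  abel

theorem tri3 (c : ZMod 3) : c + (c + c) = 0 := by
  revert c
  decide

theorem tri2 (c : ZMod 2) : c + (c + c) = c := by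
  revert c
  decide

theorem ttri_A {α : Type} (t : Lg.Term α) (v : α → A) :
    (ttri t).realize v = (0, (t.realize v).2.1, 0) := by
  simp only [ttri, tadd_A]
  refine Prod.ext (tri3 _) (Prod.ext (Prod.ext (tri2 _) (tri2 _)) (tri3 _))

theorem ttri_B {N : ℕ} {α : Type} (t : Lg.Term α) (v : α → B N) :
    (ttri t).realize v = (0, (t.realize v).2.1, 0) := by
  simp only [ttri, tadd_B]
  refine Prod.ext (tri3 _) (Prod.ext ?_ ?_)
  · funext ξ
    exact tri2 _
  · funext i
    exact tri3 _

theorem exists_sum_term (N : ℕ) (s : Finset (Fin (N + 1))) :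
    ∃ t : Lg.Term (Fin (N + 1)),
      (∀ v : Fin (N + 1) → A, (t.realize v).2.1.2 = 0 ∧ (t.realize v).2.2 = 0) ∧
      ∀ w : Fin (N + 1) → B (N + 1),
        (t.realize w).2.1 = fun ξ => ∑ i ∈ s, ind ((w i).2.2 ⬝ᵥ ξ) := by
  classical
  induction s using Finset.induction_on with
  | empty =>
    refine ⟨tsub (Term.var 0) (Term.var 0), ?_, ?_⟩
    · intro v
      simp [realize_tsub, osub_A]
    · intro w
      funext ξ
      simp [realize_tsub, osub_B]
  | insert i s hi ih =>
    obtain ⟨t, h1, h2⟩ := ih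
    refine ⟨tadd (ttri (tu (Term.var i))) t, ?_, ?_⟩
    · intro v
      simp [tadd_A, ttri_A, realize_tu, ou_A, uA, h1 v]
    · intro w
      funext ξ
      simp [tadd_B, ttri_B, realize_tu, ou_B, uB, h2 w, Finset.sum_insert hi]

theorem sg_add (a b : ZMod 2) : sg (a + b) = sg a * sg b := by
  revert a b
  decide

theorem sg_sum {ι : Type} (s : Finset ι) (c : ι → ZMod 2) :
    sg (∑ i ∈ s, c i) = ∏ i ∈ s, sg (c i) := by
  classical
  induction s using Finset.induction_on with
  | empty => simp [sg]
  | insert i s hi ih => rw [Finset.sum_insert hi, Finset.prod_insert hi, sg_add, ih]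

theorem not_InV (N : ℕ) : ¬ InV (B (N + 1)) := by
  classical
  intro h
  obtain ⟨t, h1, h2⟩ := exists_sum_term N Finset.univ
  have key := h (N + 1) (tu t) (tu (tsub (Term.var 0) (Term.var 0))) (by
    intro v
    simp [realize_tu, realize_tsub, ou_A, osub_A, uA, h1 v]) (fun i => (0, 0, Pi.single i 1))
  have k1 := congrArg Prod.fst key
  simp only [realize_tu, realize_tsub, ou_B, osub_B, uB, h2, sub_self, single_dotProduct,
    one_mul, sg_sum] at k1
  have e1 : ∑ ξ : S (N + 1), ∏ i, sg (ind (ξ i)) = 1 := by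
    have := Finset.prod_univ_sum (fun _ : Fin (N + 1) => (Finset.univ : Finset (ZMod 3)))
      (fun _ r => sg (ind r))
    rw [Fintype.piFinset_univ] at this
    rw [← this]
    have e : ∑ r : ZMod 3, sg (ind r) = 1 := by decide
    simp [e]
  have e2 : ∑ ξ : S (N + 1), sg ((0 : B (N + 1)).2.1 ξ) = 0 := by
    have : ∀ ξ : S (N + 1), sg ((0 : B (N + 1)).2.1 ξ) = 1 := fun _ => rfl
    simp only [this, Finset.sum_const, Finset.card_univ, Fintype.card_pi, ZMod.card,
      Finset.prod_const, Fintype.card_fin, nsmul_eq_mul, mul_one, Nat.cast_pow]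
    have h3 : ((3 : ℕ) : ZMod 3) = 0 := rfl
    rw [h3]
    simp
  rw [e1, e2] at k1
  exact absurd k1 (by decide)

end Pool.Agent.H10Z.SI
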