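import Pool.Agent.H10Z.SIB

/-!
Uniform subdirect irreducibility of the test algebras and the ultraproduct argument.
-/

set_option autoImplicit false

open FirstOrder FirstOrder.Language Filter

namespace Pool.Agent.H10Z.SI

/-- the unsigned polynomials; the variables are `y`, `a`, `v` -/
def polU : Fin 3 → Lg.Term (Fin 3)
  | 0 => tsub (Term.var 2) (Term.var 0)
  | 1 => tsub (tu (tadd (Term.var 1) (ttri (tsub (Term.var 2) (Term.var 0))))) (tu (Term.var 1))
  | 2 => tsub (tu (tadd (Term.var 1) (ttri (tsub (tu (tsub (Term.var 2) (Term.var 0)))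
      (tu (tsub (Term.var 0) (Term.var 0))))))) (tu (Term.var 1))

/-- the signed polynomials -/
def pol (j : Fin 3 × Bool) : Lg.Term (Fin 3) :=
  if j.2 then polU j.1 else tsub (tsub (Term.var 0) (Term.var 0)) (polU j.1)

/-- the generator of the monolith -/
def cB (N : ℕ) : B N := (1, 0, 0)

theorem exists_shift {N : ℕ} (k : S N → ZMod 2) (hk : k ≠ 0) :
    ∃ a : S N → ZMod 2, ∑ ξ, sg (a ξ + k ξ) - ∑ ξ, sg (a ξ) ≠ 0 := by
  classical
  obtain ⟨ξ0, h0⟩ : ∃ ξ0, k ξ0 ≠ 0 := by
    by_contra hc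
    push Not at hc
    exact hk (funext hc)
  by_contra hc
  push Not at hc
  have h1 := hc 0
  have h2 := hc (Pi.single ξ0 1)
  have h3 : ∑ ξ, ((sg ((0 : S N → ZMod 2) ξ + k ξ) - sg ((0 : S N → ZMod 2) ξ)) -
      (sg ((Pi.single ξ0 1 : S N → ZMod 2) ξ + k ξ) - sg ((Pi.single ξ0 1 : S N → ZMod 2) ξ)))
      = 0 := by
    simp only [Finset.sum_sub_distrib]
    rw [h1, h2, sub_self]
  rw [Finset.sum_eq_single ξ0] at h3
  · simp only [Pi.zero_apply, Pi.single_eq_same] at h3
    revert h3 h0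
    generalize k ξ0 = c
    revert c
    decide
  · intro ξ _ hξ
    simp [Pi.single_eq_of_ne hξ]
  · simp

theorem sign_cases (c : ZMod 3) (hc : c ≠ 0) : c = 1 ∨ c = -1 := by
  revert c
  decide

theorem polU_spec {N : ℕ} (x y : B N) (hxy : x ≠ y) :
    ∃ (j : Fin 3) (a : B N) (c : ZMod 3), c ≠ 0 ∧ (polU j).realize ![y, a, x] = (c, 0, 0) ∧
      (polU j).realize ![y, a, y] = 0 := by
  classical
  by_cases h3 : (x - y).2.2 = 0
  · by_cases h2 : (x - y).2.1 = 0
    · refine ⟨0, 0, (x - y).1, ?_, ?_, ?_⟩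
      · intro h1
        apply hxy
        rw [← sub_eq_zero]
        exact Prod.ext h1 (Prod.ext h2 h3)
      · simp only [polU, realize_tsub, osub_B, Term.realize_var]
        exact Prod.ext rfl (Prod.ext h2 h3)
      · simp [polU, realize_tsub, osub_B]
    · obtain ⟨a, ha⟩ := exists_shift _ h2
      refine ⟨1, (0, a, 0), _, ha, ?_, ?_⟩
      · simp only [polU, realize_tsub, realize_tu, tadd_B, ttri_B, osub_B, ou_B, Term.realize_var]
        simp [uB]
        rfl
      · simp only [polU, realize_tsub, realize_tu, tadd_B, ttri_B, osub_B, ou_B, Term.realize_var]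
        simp [uB]
  · have h2 : (uB N (x - y) - uB N 0).2.1 ≠ 0 := by
      obtain ⟨i, hi⟩ : ∃ i, (x - y).2.2 i ≠ 0 := by
        by_contra hc
        push Not at hc
        exact h3 (funext hc)
      intro hc
      have := congrFun hc (Pi.single i 1)
      simp only [uB, Prod.snd_sub, Prod.fst_sub, Pi.sub_apply, dotProduct_single, mul_one,
        Prod.snd_zero, Pi.zero_apply] at this hi
      rw [ind, ind, if_neg hi, if_pos rfl] at this
      exact absurd this (by decide)
    obtain ⟨a, ha⟩ := exists_shift _ h2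
    refine ⟨2, (0, a, 0), _, ha, ?_, ?_⟩
    · simp only [polU, realize_tsub, realize_tu, tadd_B, ttri_B, osub_B, ou_B, Term.realize_var]
      simp [uB]
      rfl
    · simp only [polU, realize_tsub, realize_tu, tadd_B, ttri_B, osub_B, ou_B, Term.realize_var]
      simp [uB]

theorem pol_spec {N : ℕ} (x y : B N) (hxy : x ≠ y) :
    ∃ (j : Fin 3 × Bool) (a : B N), (pol j).realize ![y, a, x] = cB N ∧
      (pol j).realize ![y, a, y] = 0 := by
  obtain ⟨j, a, c, hc, h1, h2⟩ := polU_spec x y hxy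
  rcases sign_cases c hc with rfl | rfl
  · exact ⟨(j, true), a, by simpa [pol, cB] using h1, by simpa [pol] using h2⟩
  · refine ⟨(j, false), a, ?_, ?_⟩
    · simp [pol, realize_tsub, osub_B, h1, cB]
    · simp [pol, realize_tsub, osub_B, h2]

/-- the ultraproduct of the test algebras -/
abbrev U : Type := ((hyperfilter ℕ : Ultrafilter ℕ) : Filter ℕ).Product B

/-- the class of a sequence in the ultraproduct -/
noncomputable def cl (x : ∀ N, B N) : U := (x : ((hyperfilter ℕ : Ultrafilter ℕ) : Filter ℕ).Product B)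

theorem cl_surj (p : U) : ∃ x, cl x = p := Quotient.exists_rep p

theorem cl_eq {x y : ∀ N, B N} : cl x = cl y ↔ ∀ᶠ N in (hyperfilter ℕ : Ultrafilter ℕ), x N = y N :=
  Quotient.eq''

theorem realize_cl {α : Type} (x : α → ∀ N, B N) (t : Lg.Term α) :
    t.realize (fun i => cl (x i)) = cl (fun N => t.realize (fun i => x i N)) :=
  Ultraproduct.term_realize_cast x t

theorem osub_cl (x y : ∀ N, B N) : osub (cl x) (cl y) = cl (fun N => x N - y N) := by
  have := realize_cl ![x, y] (tsub (Term.var 0) (Term.var 1))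
  simpa only [realize_tsub, Term.realize_var, Matrix.cons_val_zero, Matrix.cons_val_one,
    osub_B] using this

theorem ou_cl (x : ∀ N, B N) : ou (cl x) = cl (fun N => uB N (x N)) := by
  have := realize_cl ![x] (tu (Term.var 0))
  simpa only [realize_tu, Term.realize_var, Matrix.cons_val_zero, ou_B] using this

theorem pol_cl (j : Fin 3 × Bool) (y a x : ∀ N, B N) :
    (pol j).realize ![cl y, cl a, cl x] = cl (fun N => (pol j).realize ![y N, a N, x N]) := by
  have := realize_cl ![y, a, x] (pol j)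
  have e1 : (fun i => cl (![y, a, x] i)) = ![cl y, cl a, cl x] := by
    funext i
    fin_cases i <;> rfl
  have e2 : ∀ N, (fun i => ![y, a, x] i N) = ![y N, a N, x N] := by
    intro N
    funext i
    fin_cases i <;> rfl
  simpa only [e1, e2] using this

theorem ev_gt (n : ℕ) : ∀ᶠ N in (hyperfilter ℕ : Ultrafilter ℕ), n < N :=
  Nat.hyperfilter_le_atTop (eventually_gt_atTop n)

theorem InV_U : InV U := by
  intro n t s h w
  choose x hx using fun i => cl_surj (w i)
  have e : w = fun i => cl (x i) := funext fun i => (hx i).symm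
  rw [e, realize_cl, realize_cl, cl_eq]
  filter_upwards [ev_gt n] with N hN
  exact transfer hN t s h _

/-- the monolith of the ultraproduct -/
def mu (p q : U) : Prop :=
  ∃ x y, cl x = p ∧ cl y = q ∧ ∀ᶠ N in (hyperfilter ℕ : Ultrafilter ℕ), (x N).2 = (y N).2

theorem mu_cl {x y : ∀ N, B N} :
    mu (cl x) (cl y) ↔ ∀ᶠ N in (hyperfilter ℕ : Ultrafilter ℕ), (x N).2 = (y N).2 := by
  constructor
  · rintro ⟨x', y', h1, h2, h3⟩
    filter_upwards [cl_eq.mp h1, cl_eq.mp h2, h3] with N e1 e2 e3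
    rw [← e1, ← e2, e3]
  · intro h
    exact ⟨x, y, rfl, rfl, h⟩

theorem mu_equiv : Equivalence mu := by
  refine ⟨?_, ?_, ?_⟩
  · intro p
    obtain ⟨x, rfl⟩ := cl_surj p
    exact mu_cl.mpr (Eventually.of_forall fun _ => rfl)
  · intro p q h
    obtain ⟨x, rfl⟩ := cl_surj p
    obtain ⟨y, rfl⟩ := cl_surj q
    exact mu_cl.mpr ((mu_cl.mp h).mono fun _ e => e.symm)
  · intro p q r h1 h2
    obtain ⟨x, rfl⟩ := cl_surj p
    obtain ⟨y, rfl⟩ := cl_surj q
    obtain ⟨z, rfl⟩ := cl_surj r
    refine mu_cl.mpr ?_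
    filter_upwards [mu_cl.mp h1, mu_cl.mp h2] with N e1 e2
    exact e1.trans e2

theorem mu_compat : Compat mu := by
  refine compat_of ?_ ?_
  · intro p q h
    obtain ⟨x, rfl⟩ := cl_surj p
    obtain ⟨y, rfl⟩ := cl_surj q
    rw [ou_cl, ou_cl, mu_cl]
    filter_upwards [mu_cl.mp h] with N e
    simp only [uB, e]
  · intro p q r s h1 h2
    obtain ⟨x, rfl⟩ := cl_surj p
    obtain ⟨y, rfl⟩ := cl_surj q
    obtain ⟨z, rfl⟩ := cl_surj r
    obtain ⟨w, rfl⟩ := cl_surj s
    rw [osub_cl, osub_cl, mu_cl]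
    filter_upwards [mu_cl.mp h1, mu_cl.mp h2] with N e1 e2
    simp only [Prod.snd_sub, e1, e2]

theorem cB_ne : cl cB ≠ cl (fun _ => 0) := by
  intro h
  obtain ⟨N, hN⟩ := (cl_eq.mp h).exists
  have := congrArg Prod.fst hN
  simp only [cB, Prod.fst_zero] at this
  exact absurd this (by decide)

theorem mu_cB : mu (cl cB) (cl (fun _ => 0)) :=
  mu_cl.mpr (Eventually.of_forall fun _ => rfl)

theorem mu_min (θ : U → U → Prop) (hθ : Equivalence θ) (cθ : Compat θ)
    (hne : ∃ p q, θ p q ∧ p ≠ q) (p q : U) (h : mu p q) : θ p q := by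
  classical
  obtain ⟨p0, q0, h0, hne⟩ := hne
  obtain ⟨x, rfl⟩ := cl_surj p0
  obtain ⟨y, rfl⟩ := cl_surj q0
  have hev : ∀ᶠ N in (hyperfilter ℕ : Ultrafilter ℕ), x N ≠ y N :=
    Ultrafilter.eventually_not.mpr (fun hc => hne (cl_eq.mpr hc))
  have hch : ∀ N, ∃ (j : Fin 3 × Bool) (a : B N), x N ≠ y N →
      (pol j).realize ![y N, a, x N] = cB N ∧ (pol j).realize ![y N, a, y N] = 0 := by
    intro N
    by_cases hN : x N = y N
    · exact ⟨(0, true), 0, fun hc => absurd hN hc⟩
    · obtain ⟨j, a, hj⟩ := pol_spec _ _ hN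
      exact ⟨j, a, fun _ => hj⟩
  choose J a hJ using hch
  obtain ⟨j, hj⟩ : ∃ j, ∀ᶠ N in (hyperfilter ℕ : Ultrafilter ℕ), J N = j :=
    Ultrafilter.eventually_exists_iff.mp (Eventually.of_forall fun N => ⟨J N, rfl⟩)
  have hc0 : θ (cl cB) (cl (fun _ => 0)) := by
    have h1 := cθ.term ![cl y, cl a, cl x] ![cl y, cl a, cl y] (by
      intro i
      fin_cases i
      · exact hθ.refl _
      · exact hθ.refl _
      · exact h0) (pol j)
    rw [pol_cl, pol_cl] at h1
    have e1 : cl (fun N => (pol j).realize ![y N, a N, x N]) = cl cB := by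
      rw [cl_eq]
      filter_upwards [hev, hj] with N hN e
      rw [← e]
      exact (hJ N hN).1
    have e2 : cl (fun N => (pol j).realize ![y N, a N, y N]) = cl (fun _ => 0) := by
      rw [cl_eq]
      filter_upwards [hev, hj] with N hN e
      rw [← e]
      exact (hJ N hN).2
    rwa [e1, e2] at h1
  obtain ⟨z, rfl⟩ := cl_surj p
  obtain ⟨w, rfl⟩ := cl_surj q
  have hm := mu_cl.mp h
  obtain ⟨c, hc⟩ : ∃ c : ZMod 3, ∀ᶠ N in (hyperfilter ℕ : Ultrafilter ℕ), (z N).1 - (w N).1 = c :=
    Ultrafilter.eventually_exists_iff.mp (Eventually.of_forall fun N => ⟨_, rfl⟩)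
  by_cases hc1 : c = 0
  · have : cl z = cl w := by
      rw [cl_eq]
      filter_upwards [hm, hc] with N e1 e2
      rw [hc1, sub_eq_zero] at e2
      exact Prod.ext e2 e1
    rw [this]
    exact hθ.refl _
  rcases sign_cases c hc1 with rfl | rfl
  · have h1 := cθ.sub (hθ.refl (cl z)) hc0
    rw [osub_cl, osub_cl] at h1
    have e1 : cl (fun N => z N - cB N) = cl w := by
      rw [cl_eq]
      filter_upwards [hm, hc] with N e1 e2
      refine Prod.ext ?_ ?_
      · simp only [Prod.fst_sub, cB]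
        linear_combination e2
      · simp [cB, e1]
    have e2 : cl (fun N => z N - 0) = cl z := by simp
    rw [e1, e2] at h1
    exact hθ.symm h1
  · have h1 := cθ.sub (hθ.refl (cl w)) hc0
    rw [osub_cl, osub_cl] at h1
    have e1 : cl (fun N => w N - cB N) = cl z := by
      rw [cl_eq]
      filter_upwards [hm, hc] with N e1 e2
      refine Prod.ext ?_ ?_
      · simp only [Prod.fst_sub, cB]
        linear_combination -e2
      · simp [cB, e1]
    have e2 : cl (fun N => w N - 0) = cl w := by simp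
    rw [e1, e2] at h1
    exact h1

/-- no finite theory holds in the ultraproduct and forces the identities of `A` -/
theorem no_finite_theory (T : Lg.Theory) (hT : T.Finite) (hU : Theory.Model U T)
    (hB : ∀ N, Theory.Model (B N) T → InV (B N)) : False := by
  have h1 : ∀ᶠ N in (hyperfilter ℕ : Ultrafilter ℕ), ∀ φ ∈ T, B N ⊨ φ := by
    refine (eventually_all_finite hT).mpr ?_
    intro φ hφ
    exact (Ultraproduct.sentence_realize φ).mp (hU.realize_of_mem φ hφ)
  obtain ⟨N, hN, hpos⟩ := (h1.and (ev_gt 0)).exists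
  obtain ⟨M, rfl⟩ : ∃ M, N = M + 1 := ⟨N - 1, by omega⟩
  exact not_InV M (hB _ ⟨fun φ hφ => hN φ hφ⟩)

end Pool.Agent.H10Z.SI
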